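import Pool.Agent.Lib.MP_c89606_al.Main

/-! Character sums over Calogero-Moser families and regular automorphisms: full answer to Q1.
The isomorphism of hypothesis (H) is given by its comorphism: a surjection `π` from the centre of
`H_k` onto the centre for `(V^τ, W^τ)` whose kernel is the prime `q` of the maximal component. -/

namespace Pool.Agent.Results.MP_c89606_al.CharacterSums
open Pool.Agent.Lib.MP_c89606_al

theorem result (V : Type) [AddCommGroup V] [Module ℂ V] [FiniteDimensional ℂ V]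
    (W : Subgroup (V ≃ₗ[ℂ] V)) [Finite W] (hW : Subgroup.closure {s | s ∈ W ∧ IsRefl s} = W)
    (d : Dat W) (A : Type) [Ring A] [Algebra ℂ A] (G : Gen W A) (hG : G.IsRCA d)
    (τ : V ≃ₗ[ℂ] V) (hτ : τ ∈ Subgroup.normalizer (W : Set (V ≃ₗ[ℂ] V)))
    (hfin : IsOfFinOrder τ)
    (hk : ∀ H ∈ hyps W, ∀ j < ord W H, d.k (H.map τ.toLinearMap) j = d.k H j)
    (hreg : ∃ v, τ v = v ∧ ∀ w ∈ W, w v = v → w = 1)
    (q : Ideal (Ctr A)) (hq : q ∈ (G.fixIdeal τ).minimalPrimes)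
    (hmax : ∀ q' ∈ (G.fixIdeal τ).minimalPrimes, q' ≠ q →
      ringKrullDim (Ctr A ⧸ q') < ringKrullDim (Ctr A ⧸ q))
    (d' : Dat (centr W τ)) (A' : Type) [Ring A'] [Algebra ℂ A'] (G' : Gen (centr W τ) A')
    (hG' : G'.IsRCA d') (π : Ctr A →ₐ[ℂ] Ctr A') (hπ : Function.Surjective π)
    (hker : ∀ z, π z = 0 ↔ z ∈ q)
    (hι : ∀ (ξ : ℂˣ) (z z' : Ctr A), G.Moves (LinearEquiv.smulOfUnit ξ⁻¹) z z' →
      G'.Moves (LinearEquiv.smulOfUnit ξ⁻¹) (π z) (π z'))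
    (p : Ctr A' →ₐ[ℂ] ℂ)
    (hp : ∀ (ξ : ℂˣ) (z z' : Ctr A), G.Moves (LinearEquiv.smulOfUnit ξ⁻¹) z z' →
      p (π z) = p (π z'))
    (c : (W → ℂ) → ℂ) (hc : ∀ χ ∈ G.family (p.comp π), Stable τ χ → IsExtValue τ χ (c χ)) :
    ∑ᶠ χ ∈ {χ ∈ G.family (p.comp π) | Stable τ χ}, ((‖c χ‖ ^ 2 : ℝ) : ℂ) = G'.degSq p := by
  classical
  have _ := hW
  have _ := hp
  have := Fintype.ofFinite W
  obtain ⟨e⟩ := card_centr W τ hreg
  have := Fintype.ofEquiv _ e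
  exact main' ⟨d, A, G, hG⟩ τ hτ hfin hk hreg q hq hmax ⟨d', A', G', hG'⟩ π hπ hker hι p c hc

end Pool.Agent.Results.MP_c89606_al.CharacterSums
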